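import Mathlib
import Pool.Agent.Lib.MP_7279d0_gt.Orbits

set_option autoImplicit false

open Cardinal

namespace Pool.Agent.Results.MP_7279d0_gt.OrbitCount

/-- The remainder of the Stone-Čech compactification of the countable discrete space `ℕ`, with
the subspace topology. -/
abbrev OmegaStar : Type := {x : StoneCech ℕ // x ∉ Set.range (stoneCechUnit : ℕ → StoneCech ℕ)}

/-- The orbit of a point under the group of autohomeomorphisms of the space. -/
def orbit {Y : Type} [TopologicalSpace Y] (y : Y) : Set Y := {z | ∃ h : Y ≃ₜ Y, h y = z}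

/-- The space of continuous self-maps of the remainder, with the compact-open topology, has
exactly `2 ^ 𝔠` orbits under its autohomeomorphism group. -/
theorem result :
    #(Set.range (orbit : C(OmegaStar, OmegaStar) → Set C(OmegaStar, OmegaStar))) =
      2 ^ continuum := by
  obtain ⟨e, he⟩ := Pool.Agent.Lib.MP_7279d0_gt.exists_homeo
  refine Pool.Agent.Lib.MP_7279d0_gt.card_orbits (W := OmegaStar) (j := fun x => e x.1)
    (e.isEmbedding.comp Topology.IsEmbedding.subtypeVal) fun p => ?_
  constructor
  · rintro ⟨⟨x, hx⟩, rfl⟩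
    refine (e x).le_cofinite_or_eq_pure.resolve_right ?_
    rintro ⟨n, hn⟩
    exact hx ⟨n, e.injective ((he n).trans hn.symm)⟩
  · intro hp
    refine ⟨⟨e.symm p, ?_⟩, by simp⟩
    rintro ⟨n, hn⟩
    have h1 : p = pure n := by rw [← he n, hn, e.apply_symm_apply]
    have h2 := hp (Set.finite_singleton n).compl_mem_cofinite
    rw [h1] at h2
    simp at h2

end Pool.Agent.Results.MP_7279d0_gt.OrbitCount
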